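import Pool.Agent.AT6.Defs

/-!
# Squad AT6, part 1: congruences and sections

Theorem T6.  Complete proofs in the docstrings; all rows are independent (a row may take the rows which
it uses as hypotheses, also all proved rows of AT3, AT2, K9, KF).  Notation: `RM M` is the local
ring, `rr M` its residue map, `b^` the lift `eh M b` of an idempotent `b` (`KF.IdmStmt`; it vanishes at
the singular elements, `K9.H25.eh_sing`), `T8.fv a g θ = ∑ a(x) θ(g x)`, `gv M C w b θ = ∑ b^(c) θ(w c)`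
(`c ∈ C`), `T5.Lp ℓ g v`: `v` is the `ℓ`-part of `g`.  A class function `θ` satisfies
`θ(a b) = θ(b a)` also for elements of the group ring.
-/

open scoped BigOperators

noncomputable section

namespace Pool.Agent.PP.T6

open Pool.Agent.Helper51_AWC Pool.Agent.Helper79_WRA Pool.Agent.PP Pool.Agent.PP.KF
open Pool.Agent.PP.K9 Pool.Agent.PP.K9.H97 Pool.Agent.PP.H75 Pool.Agent.PP.T3 Pool.Agent.PP.T2

attribute [local instance] Ideal.Quotient.field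

/-! ## 1. Divisibility -/

/-- OBZ: sums over orbits.

Proof.  `D` acts on `S` by conjugation; the orbit of `x` has `|D : D ∩ C(x)|` elements and `F` is
constant on it.  So the sum is the sum over the orbits of `|D : D ∩ C(x)| F(x)`. -/
def ObzStmt : Prop := ∀ (M : Ideal (integralClosure ℤ ℂ)) [M.IsMaximal] (G : Type) [Group G]
  [Finite G] (D : Subgroup G) (S : Set G), (∀ d ∈ D, ∀ x ∈ S, d * x * d⁻¹ ∈ S) → ∀ F : G → ℂ,
  (∀ d ∈ D, ∀ x, F (d * x * d⁻¹) = F x) → ∀ m : ℂ,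
  (∀ x ∈ S, Dv M m (((D ⊓ Cu x).relIndex D : ℕ) * F x)) → Dv M m (∑ᶠ (x : G) (_ : x ∈ S), F x)

/-- OR6: sums over the elements outside the centraliser of `D ^ (ℓ ^ c)`.

Proof.  OBZ.  Let `x ∈ S`, `|D : D ∩ C(x)| = ℓ ^ k`.  If `k < c` then `d ^ (ℓ ^ c) ∈ C(x)` for all
`d ∈ D` (`D` is abelian, so `D ∩ C(x)` is normal in `D` and `d ^ (ℓ ^ k)` is in it), so `x` is in the
centraliser of `Uw (ℓ ^ c) D`, a contradiction.  So `ℓ ^ c` divides `|D : D ∩ C(x)|`. -/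
def Or6Stmt : Prop := ∀ (ℓ : ℕ) [Fact ℓ.Prime] (M : Ideal (integralClosure ℤ ℂ)) [M.IsMaximal]
  (G : Type) [Group G] [Finite G] (D : Subgroup G), IsPGroup ℓ D →
  (∀ a ∈ D, ∀ b ∈ D, a * b = b * a) → ∀ (c : ℕ) (S : Set G),
  (∀ d ∈ D, ∀ x ∈ S, d * x * d⁻¹ ∈ S) →
  (∀ x ∈ S, x ∉ Subgroup.centralizer (Uw (ℓ ^ c) D : Set G)) → ∀ F : G → ℂ, (∀ x, F x ∈ RM M) →
  (∀ d ∈ D, ∀ x, F (d * x * d⁻¹) = F x) → Dv M ((ℓ : ℂ) ^ c) (∑ᶠ (x : G) (_ : x ∈ S), F x)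

/-- PWN: powers of an element of the group ring with residue zero.

Proof.  (1) Let `β ∈ RM M`, `rr β = 0`.  Then `β ^ k ∈ ℓ RM M` for some `k ≥ 1`: `β = α/s`, `α` an
algebraic integer in `M`, `s ∉ M`; let `T ^ d + ... + c_0` be a monic integral polynomial with root
`α`, `c_d = 1`, and `k` minimal with `ℓ ∤ c_k`; `k ≥ 1` since `c_0 = - α (...) ∈ M`, so `ℓ ∣ c_0`.
`α ^ k (α ^ (d - k) + ... + c_k) = - (c_(k-1) α ^ (k-1) + ... + c_0) ∈ ℓ RM M`, and the factor in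
brackets has residue `c_k ≠ 0`, so it is a unit of `RM M`.  (2) So the ideal `I` of `RM M` generated
by the finitely many values `b x` is contained in the radical of `(ℓ ^ c)` and finitely generated,
so `I ^ n ≤ (ℓ ^ c)` for some `n` (`Ideal.exists_pow_le_of_le_radical_of_fg`).  The values of
`pw b n` are in `I ^ n`. -/
def PwnStmt : Prop := ∀ (ℓ : ℕ) [Fact ℓ.Prime] (M : Ideal (integralClosure ℤ ℂ)) [M.IsMaximal],
  (ℓ : integralClosure ℤ ℂ) ∈ M → ∀ (G : Type) [Group G] [Finite G] (b : G → ℂ),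
  (∀ x, b x ∈ RM M) → (∀ x, rr M (b x) = 0) → ∀ c : ℕ, ∃ n : ℕ,
    ∀ x, Dv M ((ℓ : ℂ) ^ c) (T8.pw b n x)

/-- DIV: idempotents whose residue vanishes on the centraliser of `D ^ (ℓ ^ c)`.

Proof.  `U = Uw (ℓ ^ c) D ≤ D`; `D` is abelian, so it normalises `C(U)`.  Let `b(x) = J(x)` for
`x ∈ C(U)` and `0` otherwise, `a = J - b`.  `a`, `b` are `D`-invariant with values in `RM M`, `b` has
residue zero, `a` vanishes on `C(U)`.  For `n ≥ 1`: `J = J ^ n = b ^ n + ∑_{k < n} b ^ k a J ^ (n-1-k)`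
(telescoping, `J ^ 0 = 1`).  For large `n` the values of `b ^ n` are in `ℓ ^ c RM M` (PWN), so also
`T8.fv (b ^ n) g θ`.  For `p = b ^ k`, `q = J ^ m` (`D`-invariant, values in `RM M`):
`T8.fv (p a q) g θ = ∑_x a(x) F(x)`, `F(x) = ∑_{t, s} p(t) q(s) θ(g t x s)`, and
`F(d x d⁻¹) = F(x)` for `d ∈ D` (substitute `t ↦ d t d⁻¹`, `s ↦ d s d⁻¹`; `g = d g d⁻¹`, `θ` is a class
function).  OR6 for `a F` and the complement of `C(U)`. -/
def DivStmt : Prop := ∀ (ℓ : ℕ) [Fact ℓ.Prime] (M : Ideal (integralClosure ℤ ℂ)) [M.IsMaximal],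
  (ℓ : integralClosure ℤ ℂ) ∈ M → ∀ (G : Type) [Group G] [Finite G] (D : Subgroup G),
  IsPGroup ℓ D → (∀ a ∈ D, ∀ b ∈ D, a * b = b * a) → ∀ (c : ℕ) (J : G → ℂ), (∀ x, J x ∈ RM M) →
  mulF J J = J → (∀ d ∈ D, ∀ x, J (d * x * d⁻¹) = J x) →
  (∀ x ∈ Subgroup.centralizer (Uw (ℓ ^ c) D : Set G), rr M (J x) = 0) → ∀ θ : G → ℂ,
  (∀ x y, θ (y * x * y⁻¹) = θ x) → (∀ x, θ x ∈ RM M) →
  ∀ g ∈ Subgroup.centralizer (D : Set G), Dv M ((ℓ : ℂ) ^ c) (T8.fv J g θ)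

/-! ## 2. Congruences -/

/-- CNA: the congruences for the characters fixed by the power map.

Proof.  `χ` is a class function with values in `RM M` (algebraic integers).  Let `x = y s`, `y` the
`ℓ`-part, `s` the regular part, `w` an `ℓ`-element commuting with `x`, so with `y` and `s`.  `B` the
group generated by `y` and `w`, an abelian `ℓ`-group commuting with `s`; `f(v) = χ(s v)` for `v ∈ B`.
For a homomorphism `lam : B → ℂ` let `a_lam = |B|⁻¹ ∑_v f(v) lam(v⁻¹)`: it is the trace of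
`ρ(s) p_lam`, `p_lam = |B|⁻¹ ∑ lam(v⁻¹) ρ(v)` an idempotent commuting with `ρ(s)`, so a sum of roots of
unity (the eigenvalues of `ρ(s)` on the image of `p_lam`), an algebraic integer; and
`f(v) = ∑_lam a_lam lam(v)` (`B` is abelian; compare `T8.FchStmt`, `T8.RvaStmt`).
`f(v ^ N) = χ(s v ^ N) = χ((s v) ^ N) = f(v)`, so by `G5.gen` (`j = 1`) `f(v ^ j) = f(v)` for all
`j = 1` mod `ℓ ^ ε`, `ε = ep ℓ ≤ 2` (`j` prime to `ℓ`), and by the uniqueness of the coefficients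
`a_(lam ^ j) = a_lam` for these `j`.  Let `z = w ^ (ℓ ^ (c+1))`.
`χ(x z) - χ(x) = f(y z) - f(y) = ∑ a_lam (lam(y z) - lam(y))`; divide the `lam` into the classes
`{lam ^ j | j = 1 mod ℓ ^ ε}`.  Let `lam` have order `ℓ ^ k`.  If `k ≤ c + 1` then `lam(z) = 1` and the
contribution is `0`.  If `k ≥ c + 2` then `k ≥ ε` and the class has the `ℓ ^ (k-ε)` elements `lam ^ (1 + ℓ ^ ε i)`,
`i < ℓ ^ (k-ε)`; their sum at `v` is `lam(v) ∑_i (lam(v) ^ (ℓ ^ ε)) ^ i`, which is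
`ℓ ^ (k-ε) lam(v)` or `0`, divisible by `ℓ ^ c` as `k - ε ≥ c`. -/
def CnaStmt : Prop := ∀ (ℓ : ℕ) [Fact ℓ.Prime] (M : Ideal (integralClosure ℤ ℂ)) [M.IsMaximal],
  (ℓ : integralClosure ℤ ℂ) ∈ M → ∀ (G : Type) [Group G] [Finite G] (N : ℕ), T5.G5 G ℓ N →
  ∀ χ ∈ Irr G, (∀ g, χ (g ^ N) = χ g) → Cg M ℓ χ

/-- CNB: the same for an element `a` of the group ring which commutes with `w`.

Proof.  `z = w ^ (ℓ ^ (c+1))`, `D = ⟨w⟩`.  The difference is the sum over `x ∈ G` of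
`F(x) = a(x) (θ(k z x) - θ(k x))`, which is `D`-invariant (`k`, `z` commute with `w`, `θ` is a class
function).  OBZ with `S = G`: let `|D : D ∩ C(x)| = ℓ ^ p`, so `w' = w ^ (ℓ ^ p)` commutes with `x` and
with `k x`.  If `p ≥ c` then `ℓ ^ p F(x) ∈ ℓ ^ c RM M`.  Otherwise `z = w' ^ (ℓ ^ ((c-p)+1))`,
`θ(k z x) = θ(k x z)`, and by `Cg.cg` (for `k x`, `w'`, `c - p`) the difference is in
`ℓ ^ (c-p) RM M`. -/
def CnbStmt : Prop := ∀ (ℓ : ℕ) [Fact ℓ.Prime] (M : Ideal (integralClosure ℤ ℂ)) [M.IsMaximal]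
  (G : Type) [Group G] [Finite G] (θ : G → ℂ), Cg M ℓ θ → ∀ a : G → ℂ, (∀ x, a x ∈ RM M) →
  ∀ w k : G, El ℓ w → w * k = k * w → (∀ x, a (w * x * w⁻¹) = a x) → ∀ c : ℕ,
    Dv M ((ℓ : ℂ) ^ c) (T8.fv a (k * w ^ ℓ ^ (c + 1)) θ - T8.fv a k θ)

/-! ## 3. Sections -/

/-- SVV: properties of the section components.

Proof.  (i) Let `v` be the `ℓ`-part of `u⁻¹ g u` and of `u'⁻¹ g u'`; then `u v u⁻¹ = u' v u'⁻¹` is the
`ℓ`-part of `g` (unique), `c = u⁻¹ u' ∈ C(v)`, `u'⁻¹ g u' = c⁻¹ (u⁻¹ g u) c`, and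
`gv M (Cu v) (c⁻¹ k c) b θ = gv M (Cu v) k b θ` (`b^` is a class function of `C(v)`, `θ` is a class
function).  So the sum has `|C(v)|` equal terms (the `u' ∈ u C(v)`).  (ii) clear.  (iii) Substitute
`u ↦ y u`.  (iv) (i), (ii); the values of `b^` are in `RM M` (IDM).  (v) `t v t⁻¹` is the `ℓ`-part of
`u⁻¹ g u` iff `v` is the `ℓ`-part of `(u t)⁻¹ g (u t)`, and
`gv M (Cu (t v t⁻¹)) k (cj t b) θ = gv M (Cu v) (t⁻¹ k t) b θ` (`C(t v t⁻¹) = t C(v) t⁻¹`; the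
lift of `cj t b` is the conjugate of the lift of `b`, see `Helper62_AT3/CO2.lean`: `eh_equiv`,
`cjE`). -/
def SvvStmt : Prop := ∀ (ℓ : ℕ) [Fact ℓ.Prime] (M : Ideal (integralClosure ℤ ℂ)) [M.IsMaximal],
  (ℓ : integralClosure ℤ ℂ) ∈ M → ∀ (G : Type) [Group G] [Finite G] (v : G) (b : G → FF M),
  Ix (Cu v) b → ∀ θ : G → ℂ, (∀ x y, θ (y * x * y⁻¹) = θ x) →
  (∀ g u : G, T5.Lp ℓ (u⁻¹ * g * u) v → sv M ℓ v b θ g = gv M (Cu v) (u⁻¹ * g * u) b θ) ∧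
  (∀ g : G, (∀ u : G, ¬ T5.Lp ℓ (u⁻¹ * g * u) v) → sv M ℓ v b θ g = 0) ∧
  (∀ x y : G, sv M ℓ v b θ (y * x * y⁻¹) = sv M ℓ v b θ x) ∧
  ((∀ x, θ x ∈ RM M) → ∀ x, sv M ℓ v b θ x ∈ RM M) ∧
  ∀ t g : G, sv M ℓ (t * v * t⁻¹) (cj t b) θ g = sv M ℓ v b θ g

/-- KRF: the component of a class function in an idempotent at the regular elements depends only on
the values at the regular elements.

Proof.  `φ|X = ∑_ψ (φ, ψ) ψ`, the sum over `Irr X`, and `∑_c κ^(c) ψ(s c)` is `ψ(s)` for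
`ψ ∈ IrrE κ` and `0` otherwise (IDM).  So the left side is
`|X|⁻¹ ∑_{c ∈ X} φ(c) ∑_{ψ ∈ κ} ψ(s) ψ(c⁻¹)`.  For `c` singular the inner sum vanishes
(`WboStmt`), for `c` regular `φ(c) = 0`.  (Compare `T5.KerStmt`.) -/
def KrfStmt : Prop := ∀ (ℓ : ℕ) [Fact ℓ.Prime] (M : Ideal (integralClosure ℤ ℂ)) [M.IsMaximal],
  (ℓ : integralClosure ℤ ℂ) ∈ M → ∀ (G : Type) [Group G] [Finite G] (X : Subgroup G)
  (κ : G → FF M), Ix X κ → ∀ φ : G → ℂ, (∀ x ∈ X, ∀ y ∈ X, φ (y * x * y⁻¹) = φ x) →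
  (∀ x ∈ X, Reg ℓ x → φ x = 0) → ∀ s ∈ X, Reg ℓ s → gv M X s κ φ = 0

/-- SMH: the second main theorem for class functions.

Proof.  Both sides are linear in `θ`, so let `θ = χ ∈ Irr G`.  The left side is `χ(x s)` if
`χ ∈ IrrE e` and `0` otherwise (IDM).  `E = e|C(x)` is an idempotent of `F C(x)` (`H75.br_mulF` for
`⟨x⟩`), and the lifts of `E` and `1 - E` have the sum `δ_1`, so the sum of the right side and of the
same expression for `1 - E` is `χ(x s)`.  If `x ≠ 1`: for `χ ∈ e` SMG, second part, for `1 - E`;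
for `χ ∉ e` SMG, first part, for `E`.  If `x = 1` then `C(x) = G`. -/
def SmhStmt : Prop := ∀ (ℓ : ℕ) [Fact ℓ.Prime] (M : Ideal (integralClosure ℤ ℂ)) [M.IsMaximal],
  (ℓ : integralClosure ℤ ℂ) ∈ M → ∀ (G : Type) [Group G] [Finite G] (e : G → FF M), IsIdem e →
  ∀ x : G, El ℓ x → ∀ s ∈ Cu x, Reg ℓ s → ∀ θ : G → ℂ, (∀ x y, θ (y * x * y⁻¹) = θ x) →
    T8.fv (eh M e) (x * s) θ = gv M (Cu x) (x * s) e θ

/-- LCX: every local block is conjugate to a local block of an element of `V`.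

Proof (compare `T2.StgStmt`, `Helper81_AT2/STG.lean`, `T3.NstStmt`).  By DUG (`Q = ⟨x⟩`) there is an
`ℓ`-subgroup `P ≤ C(x)`, `x ∈ P`, of order `|V|`, good for `κ`, so good for `e`, so
`P = k V k⁻¹` (`FmgStmt`).  So `x' = k⁻¹ x k ∈ V`, `V` is good for `κ' = cj k⁻¹ κ`, a block of `C(x')`.
Let `γ₁` be a block of `C(V)` with `br_V(κ') γ₁ = γ₁`; `br_V(e) γ₁ = γ₁`.  `br_V(e)` is a block of
`N(V)` (`FmgStmt`), so `γ = cj n γ₁` with `n ∈ N(V)` (`K9.OrbStmt`).  `u = k n⁻¹`,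
`v = n x' n⁻¹ ∈ V`, `cj u⁻¹ κ = cj n κ'`, `br_V(cj n κ') γ = cj n (br_V(κ') γ₁) = γ`. -/
def LcxStmt : Prop := ∀ (ℓ : ℕ) [Fact ℓ.Prime] (M : Ideal (integralClosure ℤ ℂ)) [M.IsMaximal],
  (ℓ : integralClosure ℤ ℂ) ∈ M → ∀ (G : Type) [Group G] [Finite G] (e : G → FF M)
  (V : Subgroup G) (γ : G → FF M), Ld ℓ e V γ → ∀ x : G, El ℓ x → ∀ κ : G → FF M, Bx (Cu x) κ →
  mulF (fun t : Cu x => e t) (fun t : Cu x => κ t) = (fun t : Cu x => κ t) →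
  ∃ u v : G, v ∈ V ∧ x = u * v * u⁻¹ ∧ Lc e V γ v (cj u⁻¹ κ)

/-- SEC: the decomposition of a class function into the components in the sections.

Proof.  Let `g = x s`, `x` the `ℓ`-part.  By SMH the left side is `gv M (Cu x) g e θ`, the sum of
`gv M (Cu x) g κ θ` over the blocks `κ` of `C(x)` under `e` (`e|C(x)` is their sum).  For such a `κ`
let `O_κ` be the set of the `v ∈ V` such that `x = u v u⁻¹`, `κ = cj u (b v)` for some `u`.  It is not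
empty (LCX and the uniqueness in LOC), and by FUS it is contained in one orbit under `T = Tg V γ`;
it is stable under `T` (`cj t (b v) = b (t v t⁻¹)` by LOC: `br_V(cj t (b v)) γ = γ`).  So
`∑_{v ∈ O_κ} wt v = |T : T ∩ C(v)| |T ∩ C(v)|/|T| = 1`, and for `v ∈ O_κ`
`sv v (b v) θ g = gv M (Cu x) g κ θ` (SVV (i), (v)).  The sets `O_κ` are disjoint: if
`x = u v u⁻¹ = u' v u'⁻¹` then `u' u⁻¹ ∈ C(x)` and `cj u' (b v) = cj u (b v)`.  If `v ∈ V` is in no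
`O_κ` then `x` is not conjugate to `v` (otherwise `x = u v u⁻¹` and `κ = cj u (b v)` is a block of
`C(x)` under `e`), so `sv v (b v) θ g = 0` (SVV (ii)). -/
def SecStmt : Prop := ∀ (ℓ : ℕ) [Fact ℓ.Prime] (M : Ideal (integralClosure ℤ ℂ)) [M.IsMaximal],
  (ℓ : integralClosure ℤ ℂ) ∈ M → ∀ (G : Type) [Group G] [Finite G] (e : G → FF M)
  (V : Subgroup G) (γ : G → FF M), Ld ℓ e V γ → ∀ b : G → G → FF M,
  (∀ v ∈ V, Lc e V γ v (b v)) → ∀ θ : G → ℂ, (∀ x y, θ (y * x * y⁻¹) = θ x) → ∀ g : G,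
    T8.fv (eh M e) g θ = ∑ᶠ (v : G) (_ : v ∈ V), wt V γ v * sv M ℓ v (b v) θ g

/-- IPS: inner products with a section component.

Proof.  `C = C(v)`.  By definition the left side is `|C|⁻¹ ∑_u ∑_k gv M C k b θ conj θ'(k)`, `k`
over the elements with `ℓ`-part `v` (substitute `g = u k u⁻¹`), i.e. `k = v s`, `s ∈ C` regular; so it is
`|G| |C|⁻¹ ∑_s gv M C (v s) b θ conj θ'(v s)`.  Let `f(s) = θ'(v s)`, a class function of `C`,
`f = ∑_κ (f, κ) κ`; `gv M C (v s) b θ' = ∑_{κ ∈ b} (f, κ) κ(s)`, and in the same way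
`s ↦ gv M C (v s) b θ` is a combination of the `κ ∈ b`.  By `RotStmt` the sum over the regular `s`
of `κ(s) conj κ'(s)` is zero for `κ ∈ b`, `κ' ∉ b`. -/
def IpsStmt : Prop := ∀ (ℓ : ℕ) [Fact ℓ.Prime] (M : Ideal (integralClosure ℤ ℂ)) [M.IsMaximal],
  (ℓ : integralClosure ℤ ℂ) ∈ M → ∀ (G : Type) [Group G] [Finite G] (v : G), El ℓ v →
  ∀ b : G → FF M, Ix (Cu v) b → ∀ θ θ' : G → ℂ, (∀ x y, θ (y * x * y⁻¹) = θ x) →
  (∀ x y, θ' (y * x * y⁻¹) = θ' x) →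
    ∑ᶠ g, sv M ℓ v b θ g * starRingEnd ℂ (θ' g) = Nat.card G * Pm M ℓ v b θ θ'

/-- YID: the inner product with an irreducible character through an element `y` of the group ring.

Proof.  For a class function `f` and `x ∈ G`: `∑_g f(g) χ'(g⁻¹ x) = |G| (f, χ') χ'(x)/χ'(1)`
(convolution of class functions; `(f, χ') = |G|⁻¹ ∑_g f(g) χ'(g⁻¹)`).  With `f = sv v b θ`: the left
side is `∑_x y(x) ∑_g f(g) χ'(g⁻¹ x) = (|G| chv y χ'/χ'(1)) (f, χ')`, and `(f, χ') = Pm v b θ χ'`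
(IPS). -/
def YidStmt : Prop := ∀ (ℓ : ℕ) [Fact ℓ.Prime] (M : Ideal (integralClosure ℤ ℂ)) [M.IsMaximal],
  (ℓ : integralClosure ℤ ℂ) ∈ M → ∀ (G : Type) [Group G] [Finite G] (v : G), El ℓ v →
  ∀ b : G → FF M, Ix (Cu v) b → ∀ θ : G → ℂ, (∀ x y, θ (y * x * y⁻¹) = θ x) → ∀ χ' ∈ Irr G,
  ∀ y : G → ℂ, ∑ᶠ g, sv M ℓ v b θ g * T8.fv y g⁻¹ χ' =
    (Nat.card G * chv y χ' / χ' 1) * Pm M ℓ v b θ χ'

/-- CPL: the sum of the diagonal entries over `V`.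

Proof.  For `χ ∈ e` `T8.fv (eh M e) g χ = χ(g)` (IDM), so by SEC and IPS
`|G| = ∑_g χ(g) conj χ(g) = ∑_{v ∈ V} wt v |G| Pm v (b v) χ χ`.  `C(V) ≤ T ∩ C(v) ≤ T`, so
`wt v = |T ∩ C(v) : C(V)| / ix V γ`. -/
def CplStmt : Prop := ∀ (ℓ : ℕ) [Fact ℓ.Prime] (M : Ideal (integralClosure ℤ ℂ)) [M.IsMaximal],
  (ℓ : integralClosure ℤ ℂ) ∈ M → ∀ (G : Type) [Group G] [Finite G] (e : G → FF M)
  (V : Subgroup G) (γ : G → FF M), Ld ℓ e V γ → ∀ b : G → G → FF M,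
  (∀ v ∈ V, Lc e V γ v (b v)) → ∀ χ ∈ IrrE M e,
    ∑ᶠ (v : G) (_ : v ∈ V), Mm M ℓ V γ v (b v) χ χ = Nat.card V * ix V γ

end Pool.Agent.PP.T6
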