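import Pool.Agent.AT5.Stmts1
import Pool.Agent.AT8.Stmts1

/-!
# Squad AT6: Alperin's weight conjecture for abelian defect groups of large exponent: definitions

Text: `AWC_T4.md` in the store (theorem T6).  Everything on top of squads AT3, AT2, and of a few
definitions of AT5 and AT8.  THEOREM T6: let `ℓ` be any prime, `e` a block with an abelian defect group
`V`, `|V : V ^ ℓ| ≤ ℓ ^ r`.  Then `l(e) ≤ ℓ ^ (2 r ^ 4 + 39 r ^ 2)` (no condition on the exponent of
`V` or on the inertial quotient), and if the exponent of `V` is at least this number and `V ≠ 1`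
then the alternating sum of `e` is zero.
-/

open scoped BigOperators

noncomputable section

namespace Pool.Agent.PP.T6

open Pool.Agent.Helper51_AWC Pool.Agent.Helper79_WRA Pool.Agent.PP Pool.Agent.PP.KF
open Pool.Agent.PP.K9 Pool.Agent.PP.K9.H97 Pool.Agent.PP.H75 Pool.Agent.PP.T3 Pool.Agent.PP.T2

attribute [local instance] Ideal.Quotient.field

section defs

variable {G : Type} [Group G]

/-- the numbers less than `ℓ ^ a` which are not divisible by `ℓ` -/
def un (ℓ a : ℕ) : Finset ℕ := (Finset.range (ℓ ^ a)).filter (fun j => ¬ ℓ ∣ j)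

/-- `f` is the block of the centraliser of `W ≤ V` which is over `γ`. -/
structure Lw {F : Type} [Field F] (V : Subgroup G) (γ : G → F) (W : Subgroup G) (f : G → F) :
    Prop where
  blk : Bx (Subgroup.centralizer (W : Set G)) f
  gam : mulF (br V f) γ = γ

/-- the weight `|T ∩ C(v)| / |T|` of the element `v`, `T = Tg V γ` -/
def wt {F : Type} (V : Subgroup G) (γ : G → F) (v : G) : ℂ :=
  (Nat.card (Tg V γ ⊓ Cu v : Subgroup G) : ℂ) / Nat.card (Tg V γ)

variable (M : Ideal (integralClosure ℤ ℂ)) [M.IsMaximal]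

/-- `z` is divisible by `m` in the local ring -/
def Dv (m z : ℂ) : Prop := ∃ t ∈ RM M, z = m * t

/-- the lift of the idempotent `b` of the subgroup `X`, as a function on `G` -/
def hat (X : Subgroup G) (b : G → FF M) : G → ℂ := H75.ext0 X (eh M (fun t : X => b t))

/-- A class function with values in the local ring such that
`θ(x w ^ (ℓ ^ (c + 1))) = θ(x)` modulo `ℓ ^ c` for all `ℓ`-elements `w` which commute with `x`. -/
structure Cg (ℓ : ℕ) (θ : G → ℂ) : Prop where
  cl : ∀ x y, θ (y * x * y⁻¹) = θ x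
  rm : ∀ x, θ x ∈ RM M
  cg : ∀ x w, El ℓ w → w * x = x * w → ∀ c : ℕ, Dv M ((ℓ : ℂ) ^ c) (θ (x * w ^ ℓ ^ (c + 1)) - θ x)

/-- The component of the class function `θ` in the section of `(v, b)`, `b` an idempotent of `C(v)`:
the value at `g` is `θ(g f)` if the `ℓ`-part of `g` is `u v u⁻¹` and `f = u b u⁻¹`, and `0` if the
`ℓ`-part of `g` is not conjugate to `v`. -/
def sv (ℓ : ℕ) (v : G) (b : G → FF M) (θ : G → ℂ) (g : G) : ℂ :=
  (Nat.card (Cu v) : ℂ)⁻¹ *
    ∑ᶠ (u : G) (_ : T5.Lp ℓ (u⁻¹ * g * u) v), gv M (Cu v) (u⁻¹ * g * u) b θ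

/-- The inner product of the components of `χ` and `χ'` in the section of `(v, b)`. -/
def Pm (ℓ : ℕ) (v : G) (b : G → FF M) (χ χ' : G → ℂ) : ℂ :=
  (Nat.card (Cu v) : ℂ)⁻¹ * ∑ᶠ (s : G) (_ : s ∈ Cu v ∧ Reg ℓ s),
    gv M (Cu v) (v * s) b χ * starRingEnd ℂ (gv M (Cu v) (v * s) b χ')

/-- `|V| |T ∩ C(v) : C(V)|` times the inner product -/
def Mm (ℓ : ℕ) (V : Subgroup G) (γ : G → FF M) (v : G) (b : G → FF M) (χ χ' : G → ℂ) : ℂ :=
  Nat.card V * ((Subgroup.centralizer (V : Set G)).relIndex (Tg V γ ⊓ Cu v) : ℕ) *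
    Pm M ℓ v b χ χ'

end defs

end Pool.Agent.PP.T6
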