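import Pool.Agent.AT6.Stmts1

/-!
# Squad AT6, part 2: the approximate theorem of Broué and Puig

Theorem T6.  Complete proofs in the docstrings.  `V` is an abelian defect group of the block `e` of
`G`, `T = Tg V γ`, `W ≤ V`, `H = C(W)`, `f` the block of `H` over `γ` (`Lw V γ W f`).  Main result (APX): for
two characters `χ`, `χ'` in `e` fixed by the power map, the number `Mm v b χ χ'` depends modulo
`ℓ ^ c` only on the coset of `v` modulo `V ^ (ℓ ^ (3 c + 1))`.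
-/

open scoped BigOperators

noncomputable section

namespace Pool.Agent.PP.T6

open Pool.Agent.Helper51_AWC Pool.Agent.Helper79_WRA Pool.Agent.PP Pool.Agent.PP.KF
open Pool.Agent.PP.K9 Pool.Agent.PP.K9.H97 Pool.Agent.PP.H75 Pool.Agent.PP.T3 Pool.Agent.PP.T2

attribute [local instance] Ideal.Quotient.field

/-! ## 4. The block of the centraliser of `W` -/

/-- LWD: existence of `f`; the block `f` has the defect group `V` and the inertial group `T ∩ H`.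

Proof.  As `T3.LocStmt` and `T3.LsbStmt` (`Helper88_AT3/Loc.lean`, `Helper85_AT3/LSB.lean`: `ld_of`,
`cequiv`, general transfer to a subgroup `X` with `V, C(V) ≤ X`) with `H = C(W)` instead of `C(u)`:
`1 = ∑ b_i`, the blocks of `H ≥ C(V)`; the `br_V(b_i) γ` are orthogonal central idempotents of
`F C(V)` with sum `γ`, so exactly one `f = b_i` has `br_V(f) γ = γ`.  `e|H` is an idempotent of `F H`
(`H75.br_mulF`), `e|H f` is `f` or `0`, and `0` is impossible.  `V` is good for `f`, and a good subgroup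
of `f` is good for `e`.  The centraliser and the normaliser of `V` in `H` are `C(V)` and
`N(V) ∩ H`. -/
def LwdStmt : Prop := ∀ (ℓ : ℕ) [Fact ℓ.Prime] (M : Ideal (integralClosure ℤ ℂ)) [M.IsMaximal],
  (ℓ : integralClosure ℤ ℂ) ∈ M → ∀ (G : Type) [Group G] [Finite G] (e : G → FF M)
  (V : Subgroup G) (γ : G → FF M), Ld ℓ e V γ → ∀ W : Subgroup G, W ≤ V →
  (∃ f, Lw V γ W f) ∧ ∀ f, Lw V γ W f →
    Ld ℓ (fun t : Subgroup.centralizer (W : Set G) => f t)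
      (V.subgroupOf (Subgroup.centralizer (W : Set G)))
      (fun t : Subgroup.centralizer (W : Set G) => γ t) ∧
    ∀ t : Subgroup.centralizer (W : Set G),
      t ∈ Tg (V.subgroupOf (Subgroup.centralizer (W : Set G)))
        (fun t : Subgroup.centralizer (W : Set G) => γ t) ↔ (t : G) ∈ Tg V γ

/-- CND: when is the local block `g'` of `v'` in `H` under a conjugate of the local block `b` of `v`?

Proof.  `h = cj w b` is a block of `C_G(v')`; its restriction to `H` is an idempotent of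
`F C_H(v')` (`H75.br_mulF` for `W ≤ C(v')`), so its product with the block `g'` is `g'` or `0`.
If `v' = t v t⁻¹`, `t ∈ T`: `w ∈ t C(v)`, so `h = cj t b` and `br_V(h) γ = cj t (br_V(b) γ) = γ`;
`br_V(h)` and `br_V(g')` only involve values on `C(V) ≤ H`, so
`br_V((h|H) g') γ = br_V(h) br_V(g') γ = γ ≠ 0` and `(h|H) g' = g'`.  Conversely if `(h|H) g' = g'` then
`br_V(h) γ = br_V(h) br_V(g') γ = br_V(g') γ = γ`, so `h` is the local block of `v'` in `G` (it is under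
`e` as a conjugate of `b`), and FUS (`u = v'`, `u' = v`, `g = w`) gives `t ∈ T` with
`t v t⁻¹ = v'`. -/
def CndStmt : Prop := ∀ (ℓ : ℕ) [Fact ℓ.Prime] (M : Ideal (integralClosure ℤ ℂ)) [M.IsMaximal],
  (ℓ : integralClosure ℤ ℂ) ∈ M → ∀ (G : Type) [Group G] [Finite G] (e : G → FF M)
  (V : Subgroup G) (γ : G → FF M), Ld ℓ e V γ → ∀ W : Subgroup G, W ≤ V → ∀ f, Lw V γ W f →
  ∀ v ∈ V, ∀ b, Lc e V γ v b → ∀ v' : Subgroup.centralizer (W : Set G), (v' : G) ∈ V →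
  ∀ g' : Subgroup.centralizer (W : Set G) → FF M,
  Lc (fun t : Subgroup.centralizer (W : Set G) => f t)
    (V.subgroupOf (Subgroup.centralizer (W : Set G)))
    (fun t : Subgroup.centralizer (W : Set G) => γ t) v' g' → ∀ w : G, w * v * w⁻¹ = v' →
  ((∃ t ∈ Tg V γ, t * v * t⁻¹ = v') →
    mulF (fun t : Subgroup.centralizer (W : Set G) => cj w b t) g' = g') ∧
  ((¬ ∃ t ∈ Tg V γ, t * v * t⁻¹ = v') →
    mulF (fun t : Subgroup.centralizer (W : Set G) => cj w b t) g' = 0)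

/-- CLC: the component in an idempotent `κ` of `C_H(x)` of a section component.

Proof.  `X = C_H(x)`, `φ(c) = sv v b θ (x c)` for `c ∈ X`, a class function of `X`; the left side is
`∑_{c ∈ X} κ^(c) φ(s c)`.  For `c ∈ X` regular the `ℓ`-part of `x c` is `x`.  If `x = w v w⁻¹`:
by SVV (i), (v) `φ(c) = gv M (Cu x) (x c) h θ =: φ'(c)`, `h = cj w b`, for `c` regular, and `φ'` is a
class function of `C_G(x)`.  By KRF (for the group `H`) `φ` can be replaced by `φ'`, and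
`∑_c κ^(c) φ'(s c) = ∑_c ∑_d κ^(c) h^(d) θ(x s c d)`.  If `x` is not conjugate to `v` then `φ` vanishes
at the regular elements (SVV (ii)), KRF. -/
def ClcStmt : Prop := ∀ (ℓ : ℕ) [Fact ℓ.Prime] (M : Ideal (integralClosure ℤ ℂ)) [M.IsMaximal],
  (ℓ : integralClosure ℤ ℂ) ∈ M → ∀ (G : Type) [Group G] [Finite G] (H : Subgroup G) (v : G),
  El ℓ v → ∀ b : G → FF M, Ix (Cu v) b → ∀ θ : G → ℂ, (∀ x y, θ (y * x * y⁻¹) = θ x) →
  ∀ (x : H) (κ : H → FF M), El ℓ x → Ix (Cu x) κ → ∀ s : H, s ∈ Cu x → Reg ℓ s →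
  (∀ w : G, w * v * w⁻¹ = x → gv M (Cu x) (x * s) κ (fun t : H => sv M ℓ v b θ t) =
    T8.fv (mulF (H75.ext0 H (hat M (Cu x) κ)) (hat M (Cu (x : G)) (cj w b))) ((x * s : H) : G) θ) ∧
  ((∀ w : G, w * v * w⁻¹ ≠ x) →
    gv M (Cu x) (x * s) κ (fun t : H => sv M ℓ v b θ t) = 0)

/-- BLK: the component in a local section of `H` of a section component of `G`, modulo `ℓ ^ c`.

Proof.  `h = x s`, `x` the `ℓ`-part; `x`, `s` are powers of `h`, so they commute with `V₁`.  If `x` is not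
conjugate to `v'` in `H` then both terms are `0` (SVV (ii)).  Let `x = u v' u⁻¹`, `u ∈ H`,
`κ = cj u g'`, a block of `X = C_H(x)`.  By SVV (i), (v), for every class function `ψ` of `H`,
`sv v' g' ψ h = gv M (Cu x) h κ ψ`.  If `x` is not conjugate to `v` in `G`, then `v'` is not in `T v` and
CLC gives `0`.  Let `x = w v w⁻¹`, `h₀ = cj w b`; CND for `u⁻¹ w`, conjugated with `u`:
`(h₀|H) κ = κ` if `v' ∈ T v`, and `0` otherwise.  By CLC `gv M (Cu x) h κ (sv v b θ) = T8.fv (κ^ h₀^) h θ`.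
`κ^` and `h₀^` commute (`h₀^` is a class function of `C_G(x)`, which contains the support of `κ^`) and
are idempotents.  `J = κ^ - κ^ h₀^` in the first case (the difference is `- T8.fv J h θ`),
`J = κ^ h₀^` in the second case.  `J` is an idempotent with values in `RM M`, invariant under `V₁`
(`V₁ ≤ C_H(x)`), and for `y ∈ H` the residue of `(κ^ h₀^)(y)` is `(κ (h₀|H))(y)`
(`κ^` is supported on `H`), so `rr (J y) = 0` for `y ∈ H = C(W)`.  `Uw (ℓ ^ c) V₁ = W` (PWU), DIV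
for `D = V₁`. -/
def BlkStmt : Prop := ∀ (ℓ : ℕ) [Fact ℓ.Prime] (M : Ideal (integralClosure ℤ ℂ)) [M.IsMaximal],
  (ℓ : integralClosure ℤ ℂ) ∈ M → ∀ (G : Type) [Group G] [Finite G] (e : G → FF M)
  (V : Subgroup G) (γ : G → FF M), Ld ℓ e V γ → ∀ (c : ℕ) (V₁ W : Subgroup G),
  V₁ = Uw (ℓ ^ c) V → W = Uw (ℓ ^ (2 * c)) V → ∀ f, Lw V γ W f → ∀ v ∈ V, ∀ b, Lc e V γ v b →
  ∀ v' : Subgroup.centralizer (W : Set G), (v' : G) ∈ V →
  ∀ g' : Subgroup.centralizer (W : Set G) → FF M,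
  Lc (fun t : Subgroup.centralizer (W : Set G) => f t)
    (V.subgroupOf (Subgroup.centralizer (W : Set G)))
    (fun t : Subgroup.centralizer (W : Set G) => γ t) v' g' → ∀ θ : G → ℂ,
  (∀ x y, θ (y * x * y⁻¹) = θ x) → (∀ x, θ x ∈ RM M) →
  ∀ h : Subgroup.centralizer (W : Set G), (h : G) ∈ Subgroup.centralizer (V₁ : Set G) →
  ((∃ t ∈ Tg V γ, t * v * t⁻¹ = v') → Dv M ((ℓ : ℂ) ^ c)
    (sv M ℓ v' g' (fun t : Subgroup.centralizer (W : Set G) => sv M ℓ v b θ t) h -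
      sv M ℓ v' g' (fun t : Subgroup.centralizer (W : Set G) => θ t) h)) ∧
  ((¬ ∃ t ∈ Tg V γ, t * v * t⁻¹ = v') → Dv M ((ℓ : ℂ) ^ c)
    (sv M ℓ v' g' (fun t : Subgroup.centralizer (W : Set G) => sv M ℓ v b θ t) h))

/-! ## 5. Translation by a central element -/

/-- TRN: translation by `z = w ^ (ℓ ^ (c+1))`, `w` central.

Proof.  `h ↦ h z` is a bijection of `S`.  `C(v z) = C(v)`.  (1) `sv (v z) b θ (h z)` and
`sv v b θ h` are congruent modulo `ℓ ^ c`: `v z` is the `ℓ`-part of `u⁻¹ h z u` iff `v` is the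
`ℓ`-part of `u⁻¹ h u` (`z` is a central `ℓ`-element); if there is such a `u` then by SVV (i) the two
numbers are `gv M (Cu v) (k z) b θ` and `gv M (Cu v) k b θ`, `k = u⁻¹ h u`, and CNB applies
(`a = hat (Cu v) b`, `w` is central); otherwise both are `0`.  (2) `T8.fv y (h z)⁻¹ θ'` and
`T8.fv y h⁻¹ θ'` are congruent modulo `ℓ ^ c` (CNB for `w⁻¹`).  All numbers are in `RM M`, so the
products are congruent. -/
def TrnStmt : Prop := ∀ (ℓ : ℕ) [Fact ℓ.Prime] (M : Ideal (integralClosure ℤ ℂ)) [M.IsMaximal],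
  (ℓ : integralClosure ℤ ℂ) ∈ M → ∀ (G : Type) [Group G] [Finite G] (θ θ' : G → ℂ),
  Cg M ℓ θ → Cg M ℓ θ' → ∀ w : G, El ℓ w → w ∈ Subgroup.center G → ∀ (c : ℕ) (v : G)
  (b : G → FF M), Ix (Cu v) b → ∀ y : G → ℂ, (∀ x, y x ∈ RM M) → ∀ S : Set G,
  (∀ h, h ∈ S ↔ h * w ^ ℓ ^ (c + 1) ∈ S) →
    Dv M ((ℓ : ℂ) ^ c)
      (∑ᶠ (h : G) (_ : h ∈ S), sv M ℓ (v * w ^ ℓ ^ (c + 1)) b θ h * T8.fv y h⁻¹ θ' -
        ∑ᶠ (h : G) (_ : h ∈ S), sv M ℓ v b θ h * T8.fv y h⁻¹ θ')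

/-! ## 6. The element `y` -/

/-- YEX: an element `y` of the group ring of `H` with a nonzero central character.

Proof.  `K9.FmgStmt` for the group `C(V)`, its block `γ` and the defect group `V` (first part of the
proof of `T3.DgcStmt`) gives `y₀ ∈ C(V)` such that `V` is a Sylow `ℓ`-subgroup of `C(V) ∩ C(y₀)` and
the class sum `K` of `y₀` in `C(V)` is invertible in `γ`.  Put `y = f^ γ^ δ_{y₀}` in the group ring of
`H`: values in `RM M`, `f^ y = y`, invariant under `V`.  The residue of `y` is `f γ y₀`, and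
`br_V(f γ y₀) = br_V(f) γ y₀ = γ y₀` (`H75.br_mulF`).  `T8.OmiStmt` for `i = y` (extended by zero): for
`χ ∈ e` and `κ ∈ γ` the number `|G| chv i χ/(|V| χ(1))` is in `RM M`, and its residue is `ix V γ` times
the residue of `n(i) = |C(V)| (∑_{t ∈ C(V)} i(t) κ(t))/(|V| κ(1))`.  The function
`i' = i|C(V) - γ^ δ_{y₀}` has residue zero, so `n(i')`, which is the value of the central character of
`κ` at the sum of the conjugates of `i'` over `C(V)/V`, has residue zero (class sums have values in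
`RM M`).  `n(γ^ δ_{y₀}) = |C(V)| κ(y₀)/(|V| κ(1)) = |C(V) ∩ C(y₀) : V| ω_κ(K)`, a unit of `RM M`.  `ix V γ`
is not `0` in `FF M` (`K9.InxStmt`). -/
def YexStmt : Prop := ∀ (ℓ : ℕ) [Fact ℓ.Prime] (M : Ideal (integralClosure ℤ ℂ)) [M.IsMaximal],
  (ℓ : integralClosure ℤ ℂ) ∈ M → ∀ (G : Type) [Group G] [Finite G] (e : G → FF M)
  (V : Subgroup G) (γ : G → FF M), Ld ℓ e V γ → ∀ W : Subgroup G, W ≤ V → ∀ f, Lw V γ W f →
  ∃ y : Subgroup.centralizer (W : Set G) → ℂ, (∀ x, y x ∈ RM M) ∧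
    (∀ v : Subgroup.centralizer (W : Set G), (v : G) ∈ V → ∀ x, y (v * x * v⁻¹) = y x) ∧
    mulF (eh M (fun t : Subgroup.centralizer (W : Set G) => f t)) y = y ∧
    ∀ χ ∈ IrrE M e,
      (Nat.card G * (∑ᶠ x : Subgroup.centralizer (W : Set G), y x * χ x) /
        (Nat.card V * χ 1)) ∈ RM M ∧
      rr M (Nat.card G * (∑ᶠ x : Subgroup.centralizer (W : Set G), y x * χ x) /
        (Nat.card V * χ 1)) ≠ 0

/-! ## 7. The approximate theorem of Broué and Puig -/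

/-- APS: the number `Mm v b χ χ'` in terms of the local sections of `H = C(W)`, modulo `ℓ ^ c`.

Proof.  Let `Y` be the extension of `y` by zero, `φ(g) = T8.fv Y g⁻¹ χ' = ∑_{x ∈ H} y(x) χ'(g⁻¹ x)`,
`θ = sv v b χ`; `θ` is a class function with values in `RM M`, `φ` has values in `RM M` and is
invariant under `V`.  All congruences are modulo `ℓ ^ c`.
(1) YID: `∑_{g ∈ G} θ(g) φ(g) = |V| ω Pm v b χ χ'`.  (2) By OR6 (`D = V`; `V` normalises `C(V₁)` and
`H`) the sum over `G`, the sum over `C(V₁)` and the sum over `H` are congruent (`C(V₁) ≤ H` since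
`W ≤ V₁`, PWU).  (3) `∑_{h ∈ H} θ(h) φ(h) = ∑_{h ∈ H} θ'(h) φ(h)`, `θ'(h) = T8.fv (f^) h θ` (in `H`): as
`y = f^ y`, `φ(h) = ∑_t f^(t) φ(t⁻¹ h)`, substitute `h = t h'`.  (4) By OR6 in `H` (`θ'` is a class
function of `H`) the sum of `θ' φ` over `H` is congruent to the sum over `C(V₁)`.  (5) SEC for `H`,
`f`: `θ'(h) = ∑_{v' ∈ V} wt' v' sv v' (g v') θ h`.  (6) BLK: for `h ∈ C(V₁)` the term
`sv v' (g v') θ h` is congruent to `sv v' (g v') χ h` if `v' ∈ T v` and to `0` otherwise; `wt' v'` is in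
`RM M` (`ix` of `f` is prime to `ℓ`, `K9.InxStmt`: `wt' v' = |T' ∩ C(v') : C(V)|/|T' : C(V)|`).  So
`|V| ω Pm v b χ χ'` is congruent to the sum over the `v' ∈ T v` of
`wt' v' ∑_{h ∈ C(V₁)} sv v' (g v') χ h φ(h)`.  Multiply by `|T ∩ C(v) : C(V)|`. -/
def ApsStmt : Prop := ∀ (ℓ : ℕ) [Fact ℓ.Prime] (M : Ideal (integralClosure ℤ ℂ)) [M.IsMaximal],
  (ℓ : integralClosure ℤ ℂ) ∈ M → ∀ (G : Type) [Group G] [Finite G] (e : G → FF M)
  (V : Subgroup G) (γ : G → FF M), Ld ℓ e V γ → ∀ (c : ℕ) (V₁ W : Subgroup G),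
  V₁ = Uw (ℓ ^ c) V → W = Uw (ℓ ^ (2 * c)) V → ∀ f, Lw V γ W f →
  ∀ g : Subgroup.centralizer (W : Set G) → Subgroup.centralizer (W : Set G) → FF M,
  (∀ v' : Subgroup.centralizer (W : Set G), (v' : G) ∈ V →
    Lc (fun t : Subgroup.centralizer (W : Set G) => f t)
      (V.subgroupOf (Subgroup.centralizer (W : Set G)))
      (fun t : Subgroup.centralizer (W : Set G) => γ t) v' (g v')) →
  ∀ y : Subgroup.centralizer (W : Set G) → ℂ, (∀ x, y x ∈ RM M) →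
  (∀ v : Subgroup.centralizer (W : Set G), (v : G) ∈ V → ∀ x, y (v * x * v⁻¹) = y x) →
  mulF (eh M (fun t : Subgroup.centralizer (W : Set G) => f t)) y = y →
  ∀ χ ∈ Irr G, ∀ χ' ∈ Irr G, ∀ v ∈ V, ∀ b, Lc e V γ v b →
  Dv M ((ℓ : ℂ) ^ c)
    ((Nat.card G * (∑ᶠ x : Subgroup.centralizer (W : Set G), y x * χ' x) /
        (Nat.card V * χ' 1)) * Mm M ℓ V γ v b χ χ' -
      ((Subgroup.centralizer (V : Set G)).relIndex (Tg V γ ⊓ Cu v) : ℕ) *
      ∑ᶠ (v' : Subgroup.centralizer (W : Set G)) (_ : ∃ t ∈ Tg V γ, t * v * t⁻¹ = v'),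
        wt (V.subgroupOf (Subgroup.centralizer (W : Set G)))
          (fun t : Subgroup.centralizer (W : Set G) => γ t) v' *
        ∑ᶠ (h : Subgroup.centralizer (W : Set G))
          (_ : (h : G) ∈ Subgroup.centralizer (V₁ : Set G)),
          sv M ℓ v' (g v') (fun t : Subgroup.centralizer (W : Set G) => χ t) h *
            T8.fv y h⁻¹ (fun t : Subgroup.centralizer (W : Set G) => χ' t))

/-- APX: the approximate theorem of Broué and Puig.

Proof.  `V₁ = Uw (ℓ ^ c) V`, `W = Uw (ℓ ^ (2 c)) V`, `H = C(W)`, `f` and `g` from LWD (and LOC for `H`), `y` from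
YEX, `ω` the number of YEX for `χ'`, a unit of `RM M`.  By CNA `χ` and `χ'` satisfy `Cg`, so do their
restrictions to `H`.  For `v' ∈ V` let `N v' = ∑_{h ∈ C(V₁)} sv v' (g v') χ h T8.fv y h⁻¹ χ'`.  For
`z' ∈ Uw (ℓ ^ (3 c + 1)) V`: `z' = w ^ (ℓ ^ (c+1))` with `w ∈ W` (PWU), `w` is central in `H`,
`C_H(v' z') = C_H(v')` and `g (v' z') = g v'` (uniqueness in LOC), so TRN (`S = C(V₁)`) gives
`N (v' z') = N v'` mod `ℓ ^ c`.  By APS `ω Mm v b χ χ'` is congruent to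
`|T ∩ C(v) : C(V)| ∑_{v' ∈ T v} wt' v' N v' = ∑_{q ∈ T/C(V)} wt' (q v q⁻¹) N (q v q⁻¹)` (every element
of `T v` is `q v q⁻¹` for `|T ∩ C(v) : C(V)|` cosets `q`).  Replace `v` by `v z`:
`q v z q⁻¹ = (q v q⁻¹) (q z q⁻¹)`, `q z q⁻¹ ∈ Uw (ℓ ^ (3 c + 1)) V` is central in `H`, so
`wt' (q v z q⁻¹) = wt' (q v q⁻¹)` and `N (q v z q⁻¹)` is congruent to `N (q v q⁻¹)`.  `wt'` has values
in `RM M`.  So `ω (Mm (v z) b' χ χ' - Mm v b χ χ')` is divisible by `ℓ ^ c`, and `ω` is a unit. -/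
def ApxStmt : Prop := ∀ (ℓ : ℕ) [Fact ℓ.Prime] (M : Ideal (integralClosure ℤ ℂ)) [M.IsMaximal],
  (ℓ : integralClosure ℤ ℂ) ∈ M → ∀ (G : Type) [Group G] [Finite G] (N : ℕ), T5.G5 G ℓ N →
  ∀ (e : G → FF M) (V : Subgroup G) (γ : G → FF M), Ld ℓ e V γ → ∀ c : ℕ,
  ∀ χ ∈ T5.Rf M N e, ∀ χ' ∈ T5.Rf M N e, ∀ v ∈ V, ∀ z ∈ Uw (ℓ ^ (3 * c + 1)) V, ∀ b b',
  Lc e V γ v b → Lc e V γ (v * z) b' →
    Dv M ((ℓ : ℂ) ^ c) (Mm M ℓ V γ (v * z) b' χ χ' - Mm M ℓ V γ v b χ χ')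

end Pool.Agent.PP.T6
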