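import Pool.Agent.AT6.Stmts2

/-!
# Squad AT6, part 3: the number of the characters fixed by the power map

Theorem T6.  Complete proofs in the docstrings.  `un ℓ a` is the set of the `j < ℓ ^ a` prime to `ℓ`.
`T5.Rf M N e` is the set of the characters in `e` fixed by the power map `g ↦ g ^ N`.
-/

open scoped BigOperators

noncomputable section

namespace Pool.Agent.PP.T6

open Pool.Agent.Helper51_AWC Pool.Agent.Helper79_WRA Pool.Agent.PP Pool.Agent.PP.KF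
open Pool.Agent.PP.K9 Pool.Agent.PP.K9.H97 Pool.Agent.PP.H75 Pool.Agent.PP.T3 Pool.Agent.PP.T2

attribute [local instance] Ideal.Quotient.field

/-! ## 8. Integrality and positivity -/

/-- INM: integrality of the numbers `Mm (v ^ j) b χ χ'`.

Proof (compare `T5.Gl5Stmt`).  Let `ℓ ∤ j`: `C(v ^ j) = C(v) = C` (LPW).  `χ|C = ∑ m_κ κ` with integers
`m_κ` (`Helper30_KF/Mul.lean`, `mult_int`), `v` is central in `C`, so `κ(v ^ j s) = ζ ^ (i j) κ(s)`,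
`i = i(κ)`, and `gv M C (v ^ j s) b χ = ∑_{κ ∈ b} m_κ κ(v ^ j s) = ∑_i ζ ^ (i j) ψ_i(s)` with
`ψ_i = ∑_{κ ∈ b, i(κ) = i} m_κ κ` (see `T3.InrStmt`, `T5.KerStmt`).  In the same way for `χ'` with
`ψ'_i`.  So `Mm (v ^ j) b χ χ' = |T ∩ C : C(V)| ∑_{i, i'} ζ ^ ((i - i') j) |V| rip ψ_i ψ'_i'` (inner
product on the regular elements of `C`), and `|V| rip κ κ'` is an integer for `κ, κ' ∈ b` by
`T5.InqStmt` for the group `C` and its block `b`, with the defect group `V` (LSB).  Collect the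
terms by `i - i'` modulo `ℓ ^ a`. -/
def InmStmt : Prop := ∀ (ℓ : ℕ) [Fact ℓ.Prime] (M : Ideal (integralClosure ℤ ℂ)) [M.IsMaximal],
  (ℓ : integralClosure ℤ ℂ) ∈ M → ∀ (G : Type) [Group G] [Finite G] (e : G → FF M)
  (V : Subgroup G) (γ : G → FF M), Ld ℓ e V γ → ∀ v ∈ V, ∀ b, Lc e V γ v b → ∀ a : ℕ,
  v ^ ℓ ^ a = 1 → ∀ ζ : ℂ, IsPrimitiveRoot ζ (ℓ ^ a) → ∀ χ ∈ Irr G, ∀ χ' ∈ Irr G,
  ∃ n : ℕ → ℤ, ∀ j : ℕ, ¬ ℓ ∣ j → Mm M ℓ V γ (v ^ j) b χ χ' =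
    ∑ i ∈ Finset.range (ℓ ^ a), (n i : ℂ) * ζ ^ (i * j)

/-- PSV: positivity and the inequality of Cauchy and Schwarz.

Proof.  `Mm v b χ χ` is a positive number times the sum of the `|gv M C (v s) b χ|²` over the regular
`s ∈ C(v)`.  For `χ ∈ e` the term `s = 1` is not zero (`K9.NzStmt`; `V` is good for `b` because
`br_V(b) γ = γ`).  The last claim is the inequality of Cauchy and Schwarz. -/
def PsvStmt : Prop := ∀ (ℓ : ℕ) [Fact ℓ.Prime] (M : Ideal (integralClosure ℤ ℂ)) [M.IsMaximal],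
  (ℓ : integralClosure ℤ ℂ) ∈ M → ∀ (G : Type) [Group G] [Finite G] (e : G → FF M)
  (V : Subgroup G) (γ : G → FF M), Ld ℓ e V γ → ∀ v ∈ V, ∀ b, Lc e V γ v b →
  (∀ χ : G → ℂ, Mm M ℓ V γ v b χ χ = (‖Mm M ℓ V γ v b χ χ‖ : ℝ)) ∧
  (∀ χ ∈ IrrE M e, Mm M ℓ V γ v b χ χ ≠ 0) ∧
  ∀ χ χ' : G → ℂ, ‖Mm M ℓ V γ v b χ χ'‖ ^ 2 ≤ ‖Mm M ℓ V γ v b χ χ‖ * ‖Mm M ℓ V γ v b χ' χ'‖

/-- NRP: the product of the conjugates of an element divisible by `ℓ ^ c`.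

Proof.  `y_j = ∑ m_i ζ ^ (i j)`.  The product `P` of the `y_j` over `j ∈ un ℓ a` is a rational integer
(the norm from `ℚ(ζ)` to `ℚ` of `y_1 ∈ ℤ[ζ]`, or the resultant with the cyclotomic polynomial),
and if one `y_j` is not zero then none is (they are conjugate).  Let `m` be the number of the `j`.
`y_j = ℓ ^ c t_j`, `t_j ∈ RM M`, so `P = ℓ ^ (c m) t`, `t ∈ RM M`, and so `ℓ ^ (c m)` divides `P` in
`ℤ` (otherwise `r/ℓ ∈ RM M` for an integer `r` prime to `ℓ`, so `1/ℓ ∈ RM M`, but `ℓ ∈ M`).  So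
`|P| ≥ ℓ ^ (c m)`. -/
def NrpStmt : Prop := ∀ (ℓ : ℕ) [Fact ℓ.Prime] (M : Ideal (integralClosure ℤ ℂ)) [M.IsMaximal],
  (ℓ : integralClosure ℤ ℂ) ∈ M → ∀ (a c : ℕ), 0 < a → ∀ ζ : ℂ, IsPrimitiveRoot ζ (ℓ ^ a) →
  ∀ m : ℕ → ℤ,
  (∀ j : ℕ, ¬ ℓ ∣ j →
    Dv M ((ℓ : ℂ) ^ c) (∑ i ∈ Finset.range (ℓ ^ a), (m i : ℂ) * ζ ^ (i * j))) →
  ∀ j₀ : ℕ, ¬ ℓ ∣ j₀ → ∑ i ∈ Finset.range (ℓ ^ a), (m i : ℂ) * ζ ^ (i * j₀) ≠ 0 →
    ((ℓ : ℝ) ^ c) ^ (un ℓ a).card ≤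
      ∏ j ∈ un ℓ a, ‖∑ i ∈ Finset.range (ℓ ^ a), (m i : ℂ) * ζ ^ (i * j)‖

/-- GEO: the average of the square roots of the diagonal entries is at least one.

Proof.  `y_j = Mm (v ^ j) b χ χ ≥ 0` (PSV for `v ^ j`, LPW), `y_1 ≠ 0`, `v ^ 1 = v`.  INM and NRP with
`c = 0` (the `y_j` are in `RM M` as `ζ` is): `1 ≤ ∏ y_j`, so `1 ≤ ∏ √y_j`, and by the inequality
between the arithmetic and the geometric mean the average of the `√y_j` is at least `1`. -/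
def GeoStmt : Prop := ∀ (ℓ : ℕ) [Fact ℓ.Prime] (M : Ideal (integralClosure ℤ ℂ)) [M.IsMaximal],
  (ℓ : integralClosure ℤ ℂ) ∈ M → ∀ (G : Type) [Group G] [Finite G] (e : G → FF M)
  (V : Subgroup G) (γ : G → FF M), Ld ℓ e V γ → ∀ v ∈ V, ∀ b, Lc e V γ v b → ∀ a : ℕ, 0 < a →
  v ^ ℓ ^ a = 1 → ∀ χ ∈ IrrE M e,
    ((un ℓ a).card : ℝ) ≤ ∑ j ∈ un ℓ a, Real.sqrt ‖Mm M ℓ V γ (v ^ j) b χ χ‖

/-- EQM: the numbers `Mm v b χ χ'` and `Mm (v z) b' χ χ'` are equal if the averages of the diagonal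
entries are small.

Proof.  Let `m` be the number of elements of `un ℓ a` and `y_j = Mm ((v z) ^ j) b' χ χ' -
Mm (v ^ j) b χ χ' = ∑_i n_i ζ ^ (i j)` for `ℓ ∤ j` (INM).  `(v z) ^ j = v ^ j z ^ j`, `z ^ j` is in
`Uw (ℓ ^ (3 c + 1)) V`, and `b`, `b'` are the local blocks of `v ^ j`, `(v z) ^ j` (LPW), so by APX all
`y_j` are divisible by `ℓ ^ c`.  Suppose some `y_j ≠ 0`.  NRP and the inequality between the
arithmetic and the geometric mean: `ℓ ^ c ≤ m⁻¹ ∑_j |y_j|`.  By PSV and Cauchy-Schwarz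
`∑_j |Mm (v ^ j) b χ χ'| ≤ (∑_j |Mm (v ^ j) b χ χ|) ^ (1/2) (∑_j |Mm (v ^ j) b χ' χ'|) ^ (1/2) ≤ K m`,
and the same for `v z`.  So `ℓ ^ c ≤ 2 K`, a contradiction. -/
def EqmStmt : Prop := ∀ (ℓ : ℕ) [Fact ℓ.Prime] (M : Ideal (integralClosure ℤ ℂ)) [M.IsMaximal],
  (ℓ : integralClosure ℤ ℂ) ∈ M → ∀ (G : Type) [Group G] [Finite G] (N : ℕ), T5.G5 G ℓ N →
  ∀ (e : G → FF M) (V : Subgroup G) (γ : G → FF M), Ld ℓ e V γ → ∀ c a : ℕ, 0 < a → ∀ K : ℝ,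
  2 * K < (ℓ : ℝ) ^ c → ∀ v ∈ V, v ^ ℓ ^ a = 1 → ∀ z ∈ Uw (ℓ ^ (3 * c + 1)) V, z ^ ℓ ^ a = 1 →
  ∀ b b', Lc e V γ v b → Lc e V γ (v * z) b' → ∀ χ ∈ T5.Rf M N e, ∀ χ' ∈ T5.Rf M N e,
  ∑ j ∈ un ℓ a, ‖Mm M ℓ V γ (v ^ j) b χ χ‖ ≤ K * (un ℓ a).card →
  ∑ j ∈ un ℓ a, ‖Mm M ℓ V γ (v ^ j) b χ' χ'‖ ≤ K * (un ℓ a).card →
  ∑ j ∈ un ℓ a, ‖Mm M ℓ V γ ((v * z) ^ j) b' χ χ‖ ≤ K * (un ℓ a).card →
  ∑ j ∈ un ℓ a, ‖Mm M ℓ V γ ((v * z) ^ j) b' χ' χ'‖ ≤ K * (un ℓ a).card →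
  ∀ j : ℕ, ¬ ℓ ∣ j → Mm M ℓ V γ ((v * z) ^ j) b' χ χ' = Mm M ℓ V γ (v ^ j) b χ χ'

/-! ## 9. The dimension of a section and Bessel's inequality -/

/-- DIM: an orthonormal basis of the functions on the regular elements spanned by the characters in
`b`.

Proof.  Let `R` be the set of the regular elements of `H` and `k(s, s') = |H|⁻¹ ∑_{κ ∈ b} κ(s) conj κ(s')`
on `R × R`, a hermitian matrix.  For `s ∈ R` and `s'` singular this number is `0` (`WboStmt`), so by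
the first orthogonality relation `k` is idempotent and `∑_{s'} k(s, s') κ(s') = κ(s)` for
`κ ∈ b`.  Its trace is `ln b` (`T3.LrkStmt`).  So `k` is the orthogonal projection on a space of
dimension `ln b`, which contains the `κ|R`, `κ ∈ b`.  Let `(q_i)` be an orthonormal basis of it and
`Q_i = √|H| q_i` (extended by zero). -/
def DimStmt : Prop := ∀ (ℓ : ℕ) [Fact ℓ.Prime] (M : Ideal (integralClosure ℤ ℂ)) [M.IsMaximal],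
  (ℓ : integralClosure ℤ ℂ) ∈ M → ∀ (H : Type) [Group H] [Finite H] (b : H → FF M), IsIdem b →
  ∃ Q : Fin (ln b) → H → ℂ, (∀ i k, T5.rip ℓ (Q i) (Q k) = if i = k then 1 else 0) ∧
    ∀ κ ∈ IrrE M b, ∀ s, Reg ℓ s → κ s = ∑ i, T5.rip ℓ κ (Q i) * Q i s

/-- PGR: coordinates of the functions `s ↦ gv M (Cu v) (w s) b χ`.

Proof.  DIM for `C(v)` and `b` (extend the `Q i` by zero).  By `T5.KerStmt` the function is, on the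
regular elements of `C(v)`, a linear combination of the `κ ∈ b`. -/
def PgrStmt : Prop := ∀ (ℓ : ℕ) [Fact ℓ.Prime] (M : Ideal (integralClosure ℤ ℂ)) [M.IsMaximal],
  (ℓ : integralClosure ℤ ℂ) ∈ M → ∀ (G : Type) [Group G] [Finite G] (v : G) (b : G → FF M),
  Ix (Cu v) b → ∃ Q : Fin (ln (fun t : Cu v => b t)) → G → ℂ,
    (∀ i k, (Nat.card (Cu v) : ℂ)⁻¹ * ∑ᶠ (s : G) (_ : s ∈ Cu v ∧ Reg ℓ s),
      Q i s * starRingEnd ℂ (Q k s) = if i = k then 1 else 0) ∧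
    ∀ w : G, (∀ c ∈ Cu v, w * c = c * w) → ∀ χ ∈ Irr G, ∀ s ∈ Cu v, Reg ℓ s →
      gv M (Cu v) (w * s) b χ = ∑ i, ((Nat.card (Cu v) : ℂ)⁻¹ *
        ∑ᶠ (s' : G) (_ : s' ∈ Cu v ∧ Reg ℓ s'),
          gv M (Cu v) (w * s') b χ * starRingEnd ℂ (Q i s')) * Q i s

/-- BSL: Bessel's inequality for the sections.

Proof.  For `v ∈ q` and a function `Y` let `z_v(χ) = |C(v)|⁻¹ ∑_s gv M (Cu v) (v s) (b v) χ conj Y(s)`.
(1) `∑_χ |z_v(χ)|² ≤ |C(v)|⁻¹ ∑_s |Y(s)|²`: by `T5.Co3Stmt` the left side is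
`|C|⁻² ∑_{s, s'} conj Y(s) Y(s') ∑_{κ ∈ b} κ(s) conj κ(s') = ∑_{κ ∈ b} |(κ, Y)|²`, `(κ, Y)` the
inner product in `C` of `κ` and of `Y` extended by zero to the singular elements, and Bessel's
inequality for the orthonormal characters `κ`.  (2) `∑_χ z_v(χ) conj z_v'(χ) = 0` if `v`, `v'` are not
conjugate under `T`: `T5.Co5Stmt`; if `x v' x⁻¹ = v` then `b v (cj x (b v')) = 0`, otherwise the two
blocks of `C(v)` are equal (`Bx.dich`) and FUS gives `t ∈ T` with `t v' t⁻¹ = v`.  (3) The sum of the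
`|∑_v z_v(χ)|²` is the sum over the `T`-orbits `O` of `∑_χ |∑_{v ∈ O ∩ q} z_v(χ)|²`, at most
`|O| ∑_{v ∈ O ∩ q} ∑_χ |z_v(χ)|²`, and `|O| = |T : T ∩ C(v)| = ix V γ/|T ∩ C(v) : C(V)|`. -/
def BslStmt : Prop := ∀ (ℓ : ℕ) [Fact ℓ.Prime] (M : Ideal (integralClosure ℤ ℂ)) [M.IsMaximal],
  (ℓ : integralClosure ℤ ℂ) ∈ M → ∀ (G : Type) [Group G] [Finite G] (e : G → FF M)
  (V : Subgroup G) (γ : G → FF M), Ld ℓ e V γ → ∀ q : Finset G, (∀ v ∈ q, v ∈ V) →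
  ∀ b : G → G → FF M, (∀ v ∈ q, Lc e V γ v (b v)) → ∀ Y : G → G → ℂ,
    ∑ᶠ χ ∈ Irr G, Complex.normSq (∑ v ∈ q, (Nat.card (Cu v) : ℂ)⁻¹ *
      ∑ᶠ (s : G) (_ : s ∈ Cu v ∧ Reg ℓ s),
        gv M (Cu v) (v * s) (b v) χ * starRingEnd ℂ (Y v s)) ≤
    ix V γ * ∑ v ∈ q, ((((Subgroup.centralizer (V : Set G)).relIndex (Tg V γ ⊓ Cu v) : ℕ) : ℝ))⁻¹ *
      ((Nat.card (Cu v) : ℝ)⁻¹ * ∑ᶠ (s : G) (_ : s ∈ Cu v ∧ Reg ℓ s), Complex.normSq (Y v s))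

/-! ## 10. The averaging lemma -/

/-- ISO: vectors with the same Gram matrix.

Proof.  In `E = EuclideanSpace ℂ (Fin β)` the map `∑ c_χ p_χ ↦ ∑ c_χ q_χ` is a well defined linear
isometry on the span of the `p_χ` (`‖∑ c_χ p_χ‖ = ‖∑ c_χ q_χ‖` by the hypothesis); extend it to `E`
(`LinearIsometry.extend`) and take its matrix. -/
def IsoStmt : Prop := ∀ (β : ℕ) (X : Type) [Fintype X] (p q : X → Fin β → ℂ),
  (∀ χ χ', ∑ k, p χ k * starRingEnd ℂ (p χ' k) = ∑ k, q χ k * starRingEnd ℂ (q χ' k)) →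
  ∃ U : Matrix (Fin β) (Fin β) ℂ, U.conjTranspose * U = 1 ∧ ∀ χ, U.mulVec (p χ) = q χ

/-- AVG: the averaging lemma.

Proof.  For `χ ∈ X`, `v ∈ q` let `n_j(v, χ) = (∑_k |b j v χ k|²) ^ (1/2)`, `m(v, χ) = |J|⁻¹ ∑_j n_j(v, χ)²`,
`K = 256 ε²`.  Let `X_v = {χ | m(v, χ) ≤ K}`.  By the third hypothesis, for given `χ`, the number of the
`v` with `m(v, χ) > K` is at most `4 ε |q|/K ≤ |q|/64`.  So `∑_v |X_v| ≥ (63/64) |X| |q|`, and we can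
choose `v₀` with `|X_{v₀}| ≥ (63/64) |X|`.  For `v ∈ q`, `j ∈ J` let `Y_v = X_{v₀} ∩ X_v`; the Gram
matrices of `(b j v₀ χ)` and `(b j v χ)`, `χ ∈ Y_v`, are equal, so by ISO there is a unitary matrix
`U_{j,v}` with `U_{j,v} b j v₀ χ = b j v χ` for `χ ∈ Y_v`.  Let `u_j(χ) = ∑_v U_{j,v}* b j v χ ∈ ℂ ^ β`.
The first hypothesis for `y v = U_{j,v} e_k` (`e_k` the unit vectors), added over `k`, gives
(1) `∑_χ ‖u_j(χ)‖² ≤ D |q| β`.  For `χ ∈ X_{v₀}`: `u_j(χ) = n b j v₀ χ + ∑_{v, m(v,χ) > K} U* b j v χ`,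
`n ≥ (63/64) |q|`, so `‖u_j(χ)‖ ≥ (63/64) |q| n_j(v₀, χ) - ∑_{v, m(v,χ) > K} n_j(v, χ)`.  Add over `j`:
`∑_j n_j(v₀, χ) ≥ |J|` (second hypothesis), and for `m(v, χ) > K = (16 ε)²`:
`∑_j n_j(v, χ) ≤ |J| m(v,χ) ^ (1/2) ≤ |J| m(v, χ)/(16 ε)`; the sum over these `v` is at most
`|J| 4 ε |q|/(16 ε) = |J| |q|/4`.  So `∑_j ‖u_j(χ)‖ ≥ (47/64) |q| |J|` and
`∑_j ‖u_j(χ)‖² ≥ (47/64)² |q|² |J| ≥ |q|² |J|/2`.  With (1): `|X_{v₀}| |q|² |J|/2 ≤ |J| D |q| β`,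
`|X| |q| ≤ (64/63) |X_{v₀}| |q| ≤ (64/63) 2 β D`. -/
def AvgStmt : Prop := ∀ (X q J : Type) [Fintype X] [Fintype q] [Fintype J] [Nonempty q]
  [Nonempty J] (β : ℕ) (b : J → q → X → Fin β → ℂ) (ε D : ℝ), 1 ≤ ε → 0 ≤ D →
  (∀ (j : J) (y : q → Fin β → ℂ),
    ∑ χ, Complex.normSq (∑ v, ∑ k, b j v χ k * starRingEnd ℂ (y v k)) ≤
      D * ∑ v, ∑ k, Complex.normSq (y v k)) →
  (∀ v χ, (Fintype.card J : ℝ) ≤ ∑ j, Real.sqrt (∑ k, Complex.normSq (b j v χ k))) →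
  (∀ χ, ∑ v, ∑ j, ∑ k, Complex.normSq (b j v χ k) ≤
    4 * ε * Fintype.card q * Fintype.card J) →
  (∀ v v' χ χ',
    ∑ j, ∑ k, Complex.normSq (b j v χ k) ≤ 256 * ε ^ 2 * Fintype.card J →
    ∑ j, ∑ k, Complex.normSq (b j v χ' k) ≤ 256 * ε ^ 2 * Fintype.card J →
    ∑ j, ∑ k, Complex.normSq (b j v' χ k) ≤ 256 * ε ^ 2 * Fintype.card J →
    ∑ j, ∑ k, Complex.normSq (b j v' χ' k) ≤ 256 * ε ^ 2 * Fintype.card J →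
    ∀ j, ∑ k, b j v χ k * starRingEnd ℂ (b j v χ' k) =
      ∑ k, b j v' χ k * starRingEnd ℂ (b j v' χ' k)) →
  (Fintype.card X : ℝ) * Fintype.card q ≤ 4 * β * D

/-- PIG: a coset of elements of order `ℓ ^ a` on which `F` is not larger than twice the average.

Proof.  The elements of `V` of order less than `ℓ ^ a` form a proper subgroup, so the set `V'` of the
elements of order `ℓ ^ a` has at least `|V|/2` elements, and `V' W = V'`.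
`∑_{v ∈ V'} ∑_{z ∈ W} F(v z) = |W| ∑_{v ∈ V'} F(v)`, so for some `v₀ ∈ V'`
`∑_{z ∈ W} F(v₀ z) ≤ |W| (∑_{v ∈ V} F(v))/|V'|`. -/
def PigStmt : Prop := ∀ (ℓ : ℕ) [Fact ℓ.Prime] (G : Type) [Group G] [Finite G] (V : Subgroup G),
  (∀ a ∈ V, ∀ b ∈ V, a * b = b * a) → ∀ a : ℕ, 0 < a → Monoid.exponent V = ℓ ^ a →
  ∀ W : Subgroup G, W ≤ V → (∀ z ∈ W, z ^ ℓ ^ (a - 1) = 1) → ∀ F : G → ℝ,
  (∀ v ∈ V, 0 ≤ F v) → ∃ v₀ ∈ V, (∀ z ∈ W, orderOf (v₀ * z) = ℓ ^ a) ∧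
    (∑ᶠ (z : G) (_ : z ∈ W), F (v₀ * z)) * Nat.card V ≤
      2 * Nat.card W * ∑ᶠ (v : G) (_ : v ∈ V), F v

/-- FBD: the bound for the number of the characters fixed by the power map.

Proof.  `R = T5.Rf M N e`, `m` the number of elements of `un ℓ a`, `ε = ix V γ`,
`W = Uw (ℓ ^ (3 c + 1)) V` (`z ^ (ℓ ^ (a-1)) = 1` for `z ∈ W`), `b v` the local blocks (LOC).  For `v ∈ V`
let `F(v) = m⁻¹ ∑_{χ ∈ R} ∑_{j ∈ un} |Mm (v ^ j) (b v) χ χ|`.  `v ↦ v ^ j` is a bijection of `V`,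
`b (v ^ j) = b v` (LPW), so by CPL (and PSV) `∑_{v ∈ V} F(v) = ε |V| |R|`.  PIG: `v₀` with
`∑_{z ∈ W} F(v₀ z) ≤ 2 ε |W| |R|`.  Let `X` be the set of the `χ ∈ R` with
`m⁻¹ ∑_{z ∈ W} ∑_j |Mm ((v₀ z) ^ j) (b (v₀ z)) χ χ| ≤ 4 ε |W|`; `|R| ≤ 2 |X|`.  AVG for `X`, `q = W`,
`J = un ℓ a`, `D = ε |V|`, and the following vectors: for `z ∈ W`, `v = v₀ z` (of order `ℓ ^ a`), let `Q`
be as in PGR for `v`, `b v`, and `b j z χ k = (|V| |T ∩ C(v) : C(V)|) ^ (1/2)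
|C(v)|⁻¹ ∑_s gv M (Cu v) (v ^ j s) (b v) χ conj Q_k(s)` for `k < ln (b v) ≤ β` and `0` for the other
`k < β`.  By PGR the Gram matrix of the `b j z χ` is `Mm (v ^ j) (b v) χ χ'`.  First hypothesis of AVG:
BSL for the elements `v ^ j` (`C(v ^ j) = C(v)`) and `Y (v ^ j) = (|V| |T ∩ C(v) : C(V)|) ^ (1/2)
∑_k y z k Q_k`.  Second hypothesis: GEO.  Third: definition of `X`.  Fourth: EQM with
`K = 256 ε²`.  So `|X| |W| ≤ 4 β ε |V|`. -/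
def FbdStmt : Prop := ∀ (ℓ : ℕ) [Fact ℓ.Prime] (M : Ideal (integralClosure ℤ ℂ)) [M.IsMaximal],
  (ℓ : integralClosure ℤ ℂ) ∈ M → ∀ (G : Type) [Group G] [Finite G] (N : ℕ), T5.G5 G ℓ N →
  ∀ (e : G → FF M) (V : Subgroup G) (γ : G → FF M), Ld ℓ e V γ → ∀ a : ℕ, 0 < a →
  Monoid.exponent V = ℓ ^ a → ∀ c : ℕ, 512 * ix V γ ^ 2 < ℓ ^ c → ∀ β : ℕ,
  (∀ v ∈ V, orderOf v = ℓ ^ a → ∀ b, Lc e V γ v b → ln (fun t : Cu v => b t) ≤ β) →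
  (T5.Rf M N e).ncard * Nat.card (Uw (ℓ ^ (3 * c + 1)) V) ≤ 8 * β * ix V γ * Nat.card V

end Pool.Agent.PP.T6
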