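import Pool.Agent.AT6.Stmts3
import Pool.Agent.Helper66_ML.Stmts3

/-!
# Squad AT6, part 4: the induction on the rank, the theorem

Theorem T6.  Complete proofs in the docstrings.
-/

open scoped BigOperators

noncomputable section

namespace Pool.Agent.PP.T6

open Pool.Agent.Helper51_AWC Pool.Agent.Helper79_WRA Pool.Agent.PP Pool.Agent.PP.KF
open Pool.Agent.PP.K9 Pool.Agent.PP.K9.H97 Pool.Agent.PP.H75 Pool.Agent.PP.T3 Pool.Agent.PP.T2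

attribute [local instance] Ideal.Quotient.field

/-! ## 11. Abelian `ℓ`-groups and the local blocks of the elements of maximal order -/

/-- RKA: the condition `|V : V ^ ℓ| ≤ ℓ ^ r`.

Proof.  `V ^ n := Uw n V` is the set of the `n`-th powers (`T2.PwuStmt`).  (i) The map
`v ↦ v ^ (ℓ ^ i)` is a surjection `V → V ^ (ℓ ^ i)` which maps `V ^ ℓ` onto `V ^ (ℓ ^ (i+1))`, so
`|V ^ (ℓ ^ i) : V ^ (ℓ ^ (i+1))| ≤ |V : V ^ ℓ|`; multiply for `i < n`.  (ii) If `V = V ^ ℓ` then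
`V = V ^ (ℓ ^ n)` for all `n`, so `V = 1`.  (iii) `π` induces a surjection `V/V ^ ℓ → V'/V' ^ ℓ`.
(iv) Let `V' = p(V) ≅ V/⟨v⟩`.  `v` is not in `V ^ ℓ` (otherwise `v = w ^ ℓ` and
`v ^ (ℓ ^ (a-1)) = w ^ (ℓ ^ a) = 1`), so `|V' : V' ^ ℓ| = |V : V ^ ℓ ⟨v⟩| ≤ |V : V ^ ℓ|/ℓ ≤ ℓ ^ (r-1)`
(all these are powers of `ℓ`; `r ≥ 1` by (ii)). -/
def RkaStmt : Prop := ∀ (ℓ : ℕ) [Fact ℓ.Prime] (G : Type) [Group G] [Finite G] (V : Subgroup G),
  IsPGroup ℓ V → (∀ a ∈ V, ∀ b ∈ V, a * b = b * a) → ∀ r : ℕ,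
  Nat.card V ≤ ℓ ^ r * Nat.card (Uw ℓ V) →
  (∀ n : ℕ, Nat.card V ≤ ℓ ^ (r * n) * Nat.card (Uw (ℓ ^ n) V)) ∧ (r = 0 → V = ⊥) ∧
  (∀ (H : Type) [Group H] [Finite H] (V' : Subgroup H), (∃ π : V →* V', Function.Surjective π) →
    Nat.card V' ≤ ℓ ^ r * Nat.card (Uw ℓ V')) ∧
  ∀ a : ℕ, 0 < a → Monoid.exponent V = ℓ ^ a → ∀ v ∈ V, orderOf v = ℓ ^ a → ∀ C : Subgroup G,
    V ≤ C → ∀ (A : Type) [Group A] [Finite A] (p : C →* A),
    (∀ x : C, p x = 1 ↔ (x : G) ∈ Subgroup.zpowers v) →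
    Nat.card ((V.subgroupOf C).map p) ≤ ℓ ^ (r - 1) * Nat.card (Uw ℓ ((V.subgroupOf C).map p))

/-- IXB: the bound for the inertial index.

Proof.  `T/C(V)` acts faithfully on `V`.  Let `S` be the subgroup of the `t ∈ T` which act trivially on
`V/V ^ ℓ`; for `t ∈ S` some power `t ^ (ℓ ^ k)` is in `C(V)` (`(t - 1) V ≤ V ^ (ℓ ^ i)` implies
`(t ^ ℓ - 1) V ≤ V ^ (ℓ ^ (i+1))`, as in `T2.Ux2Stmt`), and `t ^ m ∈ C(V)`, `m = ix V γ` prime to `ℓ`, so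
`S = C(V)`.  So `ix V γ` is at most the number of the automorphisms of `V/V ^ ℓ`, an elementary
abelian group of order at most `ℓ ^ r`, generated by `r` elements: at most `(ℓ ^ r) ^ r`. -/
def IxbStmt : Prop := ∀ (ℓ : ℕ) [Fact ℓ.Prime] (F : Type) [Field F], GoodF ℓ F → ∀ (G : Type)
  [Group G] [Finite G] (e : G → F) (V : Subgroup G) (γ : G → F), Ld ℓ e V γ → ¬ ℓ ∣ ix V γ →
  ∀ r : ℕ, Nat.card V ≤ ℓ ^ r * Nat.card (Uw ℓ V) → ix V γ ≤ ℓ ^ r ^ 2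

/-- LNC: the local block of `v` and its image in `C(v)/⟨v⟩`.

Proof.  `C = C(v)`, `b₁ = b|C`, a block with defect group `V` (LSB), `Z = ⟨v⟩` central in `C`,
`A = C/Z`, `p` the projection, `f = push p b₁`.  `f` is a block (PSG).  A subgroup `R'` good for `f` has
the preimage `R ≥ Z` good for `b₁` (`K9.PugStmt`), `|R'| |Z| = |R| ≤ |V|`, and `p(V)` is good for `f`,
of order `|V|/|Z|`; so `Tp`.  `p(V)` is abelian.  `γ'`: a block of `C_A(p(V))` under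
`br(f) ≠ 0`.  `ln f = ln b₁`: the central `ℓ`-subgroup `Z` acts trivially on the irreducible modular
representations of `C` (`cnt_push`; see `T5.LnbStmt`). -/
def LncStmt : Prop := ∀ (ℓ : ℕ) [Fact ℓ.Prime] (M : Ideal (integralClosure ℤ ℂ)) [M.IsMaximal],
  (ℓ : integralClosure ℤ ℂ) ∈ M → ∀ (G : Type) [Group G] [Finite G] (e : G → FF M)
  (V : Subgroup G) (γ : G → FF M), Ld ℓ e V γ → ∀ v ∈ V, ∀ b, Lc e V γ v b →
  ∃ (A : Type) (_ : Group A) (_ : Finite A) (p : Cu v →* A), Function.Surjective p ∧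
    (∀ x : Cu v, p x = 1 ↔ (x : G) ∈ Subgroup.zpowers v) ∧
    (∃ γ' : A → FF M, Ld ℓ (push p (fun t : Cu v => b t)) ((V.subgroupOf (Cu v)).map p) γ') ∧
    ln (push p (fun t : Cu v => b t)) = ln (fun t : Cu v => b t)

/-! ## 12. The bound for the number of modular characters -/

/-- LB6: the bound for the number of modular characters.

Proof.  Induction on `r`, for all groups.  If `V = ⊥` (in particular if `r = 0`, RKA (ii)) then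
`IrrE e` has one element (`K9.DzoStmt`) and `ln e ≤ 1` (`K9.LbdStmt`).  Let `V ≠ ⊥`, `R = r + 1 ≥ 1`,
the exponent of `V` is `ℓ ^ a`, `a > 0`.  `c = 2 R ^ 2 + 10`: `512 ix ^ 2 < ℓ ^ 10 ℓ ^ (2 R ^ 2) = ℓ ^ c` (IXB,
`K9.InxStmt`).  For `v ∈ V` of order `ℓ ^ a` with local block `b`: `ln b = ln f`, `f` a block of
`C(v)/⟨v⟩` whose defect group `V'` satisfies `|V' : V' ^ ℓ| ≤ ℓ ^ r` (LNC, RKA (iv)), so by induction
`ln b ≤ β = ℓ ^ (2 r ^ 4 + 39 r ^ 2)`.  `N` from `T5.Pr5Stmt`, `ln e ≤ |T5.Rf M N e|` by `T5.Fx5Stmt`.  FBD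
and `|V| ≤ ℓ ^ (R (3 c + 1)) |Uw (ℓ ^ (3 c + 1)) V|` (RKA (i)), `8 ≤ ℓ ^ 3`:
`ln e ≤ ℓ ^ (3 + 2 r ^ 4 + 39 r ^ 2 + R ^ 2 + R (6 R ^ 2 + 31))`, and the exponent is at most
`2 R ^ 4 + 39 R ^ 2` (the difference is `2 r ^ 3 - 7 r ^ 2 + 35 r ≥ 0`). -/
def Lb6Stmt : Prop := ∀ (ℓ : ℕ) [Fact ℓ.Prime] (M : Ideal (integralClosure ℤ ℂ)) [M.IsMaximal],
  (ℓ : integralClosure ℤ ℂ) ∈ M → ∀ (r : ℕ) (G : Type) [Group G] [Finite G] (e : G → FF M)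
  (V : Subgroup G) (γ : G → FF M), Ld ℓ e V γ → Nat.card V ≤ ℓ ^ r * Nat.card (Uw ℓ V) →
    ln e ≤ ℓ ^ (2 * r ^ 4 + 39 * r ^ 2)

/-! ## 13. The theorem -/

/-- T6A: the main theorem for block idempotents.

Proof (compare `T2.T2aStmt`, `Helper92_AT2/T2A.lean`).  Induction on `|G|`.  If `opCore ℓ G ≠ ⊥`:
`YzrStmt`.  Let `opCore ℓ G = ⊥`.  `T2.Ih M ℓ a |G| V (ix V γ)` holds by induction and RKA (iii).
`T2.FstStmt`: `f`; `T2.TesStmt`: `YY ⊤ e = |G| (ln e - ln f_X)`, `X = N(U)`.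
`1 ≤ ln e, ln f_X ≤ ℓ ^ a` (`K9.LbdStmt`; LB6 for `G` and for `X`, `f_X`, `V_X ≅ V`).  `V` has an element
of order `ℓ ^ a`, `V ≠ ⊥`.  `H75.block_case` (with POS) gives `χ` with `res M e χ = 1` and
`|G| altSum χ = YY`, so `altSum χ = ln e - ln f_X`, of absolute value smaller than `ℓ ^ a` and divisible
by `ℓ ^ a` (`T2.DvxStmt`), so `0`. -/
def T6aStmt : Prop := ∀ (ℓ : ℕ) [Fact ℓ.Prime] (M : Ideal (integralClosure ℤ ℂ)) [M.IsMaximal],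
  (ℓ : integralClosure ℤ ℂ) ∈ M → ∀ (a r : ℕ), 0 < a → 2 * r ^ 4 + 39 * r ^ 2 ≤ a → ∀ (G : Type)
  [Group G] [Finite G] (e : G → FF M) (V : Subgroup G) (γ : G → FF M), Ld ℓ e V γ →
  Monoid.exponent V = ℓ ^ a → Nat.card V ≤ ℓ ^ r * Nat.card (Uw ℓ V) → YY ℓ ⊤ e = 0

/-- FN6: the final theorem, alternating sums.

Proof.  `e` the block of `χ` (`H50.bid`), `Z = opCore ℓ G`.  `H75.altSum_central`:
`|G| altSum χ = |Z|² YY ℓ ⊤ (push p e)`.  `T2.DzaStmt`: `Ld ℓ (push p e) (D.map p) γ`.  T6A.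
(Compare `T2.Fn2Stmt`, `Helper53_AT2/FN2.lean`.) -/
def Fn6Stmt : Prop := ∀ (ℓ : ℕ) [Fact ℓ.Prime] (M : Ideal (integralClosure ℤ ℂ)) [M.IsMaximal],
  (ℓ : integralClosure ℤ ℂ) ∈ M → ∀ (G : Type) [Group G] [Finite G],
  opCore ℓ G ≤ Subgroup.center G → ∀ χ ∈ Irr G, ∀ D : Subgroup G, ML.IsDef ℓ M χ D →
  (∀ x ∈ D, ∀ y ∈ D, x * y * x⁻¹ * y⁻¹ ∈ opCore ℓ G) → ∀ (A : Type) [Group A] [Finite A]
  (p : G →* A), Function.Surjective p → p.ker = opCore ℓ G → ∀ a r : ℕ, 0 < a →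
  Monoid.exponent (D.map p) = ℓ ^ a → Nat.card (D.map p) ≤ ℓ ^ r * Nat.card (Uw ℓ (D.map p)) →
  2 * r ^ 4 + 39 * r ^ 2 ≤ a → altSum ℓ M χ = 0

open Classical in
/-- FN7: the final theorem, the number of modular characters: the dimension of the space spanned by
the restrictions to the regular elements of the characters in the block of `χ`.

Proof.  `e` the block of `χ`: the `ψ` in the set are the elements of `IrrE M e` (as in
`T3.FltStmt`, `H50.char_uniq`).  `Tp ℓ e D` (`T2.H24.tp_of_isDef`), `γ` a block of `C(D)` under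
`br_D(e) ≠ 0`, so `Ld ℓ e D γ`.  DIM: the space is contained in the span of the `ln e` functions `Q i`
(set to `0` at the singular elements), so its dimension is at most `ln e`.  LB6. -/
def Fn7Stmt : Prop := ∀ (ℓ : ℕ) [Fact ℓ.Prime] (M : Ideal (integralClosure ℤ ℂ)) [M.IsMaximal],
  (ℓ : integralClosure ℤ ℂ) ∈ M → ∀ (G : Type) [Group G] [Finite G], ∀ χ ∈ Irr G,
  ∀ D : Subgroup G, ML.IsDef ℓ M χ D → (∀ x ∈ D, ∀ y ∈ D, x * y = y * x) → ∀ r : ℕ,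
  Nat.card D ≤ ℓ ^ r * Nat.card (Uw ℓ D) →
  Module.finrank ℂ (Submodule.span ℂ {f : G → ℂ | ∃ ψ ∈ IrrBlock M (MonoidHom.id G) χ,
    f = fun g => if (orderOf g).Coprime ℓ then ψ g else 0}) ≤ ℓ ^ (2 * r ^ 4 + 39 * r ^ 2)

end Pool.Agent.PP.T6
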